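import Pool.Agent.X183.CCyc.Gen

/-!
# Leafwise complex cycles on `ℂ² × ℝ^k`: working definitions for the proofs
-/

open Set Filter Topology MeasureTheory TopologicalSpace
open scoped Manifold ContDiff Distributions

namespace Pool.Agent.X183.CCyc

/-- The tangent vector `(v, 0)` to the leaves `ℂ² × {w}`. -/
def tang (k : ℕ) (v : ℂ × ℂ) : M k := (v, 0)

/-- Compactly supported smooth `p`-forms on the open set `U ⊆ M`, with Mathlib's canonical
LF-topology. -/
abbrev Form (k p : ℕ) (U : Opens (M k)) := 𝓓(U, (M k) [⋀^Fin p]→L[ℝ] ℝ)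

/-- `p`-currents on `U`: continuous linear functionals on compactly supported `p`-forms; this type
carries the weak-* topology. -/
abbrev Current (k p : ℕ) (U : Opens (M k)) := WeakDual ℝ (Form k p U)

/-- The exterior derivative of a compactly supported smooth form. -/
noncomputable def dForm {k p : ℕ} {U : Opens (M k)} (β : Form k p U) : Form k (p + 1) U where
  toFun := extDeriv β
  contDiff' := by
    have h1 : ContDiff ℝ ∞ (fderiv ℝ β) := β.contDiff.fderiv_right (by simp)
    exact (ContinuousAlternatingMap.alternatizeUncurryFinCLM ℝ (M k) ℝ).contDiff.comp h1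
  hasCompactSupport' := by
    have h1 : HasCompactSupport (fderiv ℝ β) := β.hasCompactSupport.fderiv ℝ
    exact h1.comp_left (g := fun L => ContinuousAlternatingMap.alternatizeUncurryFinCLM ℝ (M k) ℝ L)
      (map_zero _)
  tsupport_subset' := by
    have h1 : tsupport (extDeriv β) ⊆ tsupport (fderiv ℝ β) :=
      tsupport_comp_subset
        (g := fun L => ContinuousAlternatingMap.alternatizeUncurryFinCLM ℝ (M k) ℝ L)
        (map_zero _) (fderiv ℝ β)
    exact h1.trans ((tsupport_fderiv_subset ℝ).trans β.tsupport_subset)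

/-- `c` is a cycle: `∂c(β) = c(dβ) = 0` for all compactly supported `1`-forms `β`. -/
def IsCycle {k : ℕ} {U : Opens (M k)} (c : Current k 2 U) : Prop :=
  ∀ β : Form k 1 U, c (dForm β) = 0

/-- The Dirac current `α ↦ α_y(v ∧ w)`. -/
noncomputable def dirac {k : ℕ} {U : Opens (M k)} (y : M k) (v w : M k) : Current k 2 U where
  toFun α := α y ![v, w]
  map_add' _ _ := rfl
  map_smul' _ _ := rfl
  cont := by
    have h : Continuous fun α : Form k 2 U => α y := continuous_eval_const y
    exact (ContinuousAlternatingMap.apply ℝ (M k) ℝ ![v, w]).continuous.comp h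

/-- The Dirac currents of the generators `v ∧ J v`, `v ∈ T_y F`, of the structure cone. -/
def diracSet (k : ℕ) (U : Opens (M k)) : Set (Current k 2 U) :=
  {T | ∃ y ∈ U, ∃ v : ℂ × ℂ, T = dirac y (tang k v) (tang k (Complex.I • v))}

/-- `C`-currents: the closed convex cone generated by the Dirac currents of the elements
`v ∧ J v` (whose closed convex hull is the structure cone). -/
def IsCCurrent {k : ℕ} {U : Opens (M k)} (c : Current k 2 U) : Prop :=
  c ∈ closure (Submodule.span {r : ℝ // 0 ≤ r} (diracSet k U) : Set (Current k 2 U))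

/-- Restriction of a current on `M` to an open subset `U` (extend forms by zero). -/
noncomputable def restr {k : ℕ} (c : Current k 2 ⊤) (U : Opens (M k)) : Current k 2 U where
  toFun α := c (TestFunction.monoCLM ℝ α)
  map_add' x y := by rw [map_add, map_add]
  map_smul' r x := by rw [map_smul, map_smul]; rfl
  cont := (map_continuous c).comp (TestFunction.monoCLM ℝ).continuous

section Curves

variable {k : ℕ} {S : Type} [TopologicalSpace S] [ChartedSpace ℂ S]

/-- Proper non-constant leafwise holomorphic maps. -/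
structure IsPCurve (U : Opens (M k)) (u : S → M k) : Prop where
  /-- the image lies in `U` -/
  mapsTo : ∀ s, u s ∈ U
  /-- the image lies in one leaf -/
  leaf : ∃ w : Fin k → ℝ, ∀ s, (u s).2 = w
  /-- `u` is holomorphic for the leafwise complex structure: `du ∘ j = J ∘ du` -/
  holo : MDifferentiable 𝓘(ℂ, ℂ) 𝓘(ℂ, ℂ × ℂ) fun s => (u s).1
  /-- `u : S → U` is proper -/
  proper : ∀ K : Set (M k), IsCompact K → K ⊆ U → IsCompact (u ⁻¹' K)
  /-- `u` is not constant -/
  not_const : ¬ ∀ s s', (u s).1 = (u s').1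

/-- `I` is the integral `∫_S u^* α`, computed with a finite continuous partition of unity
`ρ_i ≥ 0`, subordinate to charts, with `∑ ρ_i = 1` on `u⁻¹(supp α)`. -/
def IsPullbackIntegral (u : S → M k) (α : M k → (M k) [⋀^Fin 2]→L[ℝ] ℝ) (I : ℝ) : Prop :=
  ∃ (N : ℕ) (p : Fin N → S) (ρ : Fin N → S → ℝ),
    (∀ i, Continuous (ρ i)) ∧ (∀ i s, 0 ≤ ρ i s) ∧ (∀ i, HasCompactSupport (ρ i)) ∧
    (∀ i, tsupport (ρ i) ⊆ (chartAt ℂ (p i)).source) ∧
    (∀ s, u s ∈ tsupport α → ∑ i, ρ i s = 1) ∧
    I = ∑ i, ∫ z in (chartAt ℂ (p i)).target, ρ i ((chartAt ℂ (p i)).symm z) *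
      α (u ((chartAt ℂ (p i)).symm z))
        ![fderiv ℝ (fun z => u ((chartAt ℂ (p i)).symm z)) z 1,
          fderiv ℝ (fun z => u ((chartAt ℂ (p i)).symm z)) z Complex.I]

end Curves

end Pool.Agent.X183.CCyc
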