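import Pool.Agent.X183.CCyc.RS
import Pool.Agent.X183.CCyc.Defs

/-!
# Proper holomorphic curves inside the support avoid a neighbourhood of the origin
-/

open Set Filter Topology TopologicalSpace
open scoped Manifold ContDiff

namespace Pool.Agent.X183.CCyc

variable {k : ℕ}

/-- The support of the cycle. -/
def Supp (k : ℕ) : Set (M k) :=
  {x | x.2 = 0 ∧ ((x.1.1.re = 0 ∧ x.1.2.re ≤ 0) ∨ (x.1.2.re = 0 ∧ x.1.1.re ≤ 0) ∨
    (x.1.1.re = x.1.2.re ∧ 0 ≤ x.1.1.re))}

variable {S : Type} [TopologicalSpace S] [ChartedSpace ℂ S]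

theorem IsPCurve.continuous {U : Opens (M k)} {u : S → M k} (hu : IsPCurve U u) :
    Continuous u := by
  obtain ⟨w, hw⟩ := hu.leaf
  have h1 : Continuous fun s => (u s).1 := hu.holo.continuous
  have h2 : u = fun s => ((u s).1, w) := by
    funext s
    exact Prod.ext rfl (hw s)
  rw [h2]
  exact h1.prodMk continuous_const

theorem norm_lt_iff' (x : M k) (r : ℝ) : ‖x‖ < r ↔ ‖x.1.1‖ < r ∧ ‖x.1.2‖ < r ∧ ‖x.2‖ < r := by
  rw [Prod.norm_def, max_lt_iff, Prod.norm_def, max_lt_iff]
  tauto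

theorem norm_le_of_re_zero {z w : ℂ} (h1 : z.re = 0) (h2 : z.im = w.im) : ‖z‖ ≤ ‖w‖ := by
  have hz : z = (z.im : ℂ) * Complex.I := by
    apply Complex.ext <;> simp [h1]
  rw [hz, norm_mul, Complex.norm_I, mul_one, Complex.norm_real, h2]
  exact Complex.abs_im_le_norm w

theorem line_case [IsManifold 𝓘(ℂ, ℂ) 1 S] [ConnectedSpace S] {U : Opens (M k)} {u : S → M k}
    (hu : IsPCurve U u) {r : ℝ} (hr : Metric.ball (0 : M k) r ⊆ U)
    (p : ℂ × ℂ) (hp1 : p.1.re = 0) (hp2 : p.2.re = 0) (e : ℝ × ℝ) (he : e ≠ 0)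
    {h : S → ℂ} (hh : MDifferentiable 𝓘(ℂ, ℂ) 𝓘(ℂ, ℂ) h) (hnc : ¬ ∃ c, ∀ s, h s = c)
    (hre : ∀ s, 0 ≤ (h s).re)
    (hform : ∀ s, u s = ((p.1 + h s * e.1, p.2 + h s * e.2), 0)) (s₀ : S) :
    u s₀ ∉ Metric.ball (0 : M k) r := by
  intro hs₀
  let L : ℂ → M k := fun ζ => ((p.1 + ζ * e.1, p.2 + ζ * e.2), 0)
  have hL : Continuous L := by fun_prop
  have huL : ∀ s, u s = L (h s) := hform
  have hLinj : ∀ ζ ζ', L ζ = L ζ' → ζ = ζ' := by
    intro ζ ζ' hzz
    have h1 := congrArg (fun x : M k => x.1.1) hzz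
    have h2 := congrArg (fun x : M k => x.1.2) hzz
    simp only [L, add_right_inj, mul_eq_mul_right_iff, Complex.ofReal_eq_zero] at h1 h2
    rcases h1 with h1 | h1
    · exact h1
    · rcases h2 with h2 | h2
      · exact h2
      · exact absurd (Prod.ext h1 h2) he
  set D : Set ℂ := L ⁻¹' Metric.ball (0 : M k) r with hD
  have hDopen : IsOpen D := Metric.isOpen_ball.preimage hL
  have hDconv : Convex ℝ D := by
    have hb : Convex ℝ (Metric.ball (0 : M k) r) := convex_ball _ _
    intro x hx y hy a b ha hb' hab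
    have h1 : L (a • x + b • y) = a • L x + b • L y := by
      have hpq : ∀ q : ℂ, q = (a : ℂ) * q + (b : ℂ) * q := by
        intro q
        rw [← add_mul, ← Complex.ofReal_add, hab, Complex.ofReal_one, one_mul]
      simp only [L, Prod.smul_mk, Prod.mk_add_mk, smul_zero, add_zero, Complex.real_smul]
      refine Prod.ext (Prod.ext ?_ ?_) rfl
      · simp only
        conv_lhs => rw [hpq p.1]
        ring
      · simp only
        conv_lhs => rw [hpq p.2]
        ring
    change L (a • x + b • y) ∈ Metric.ball (0 : M k) r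
    rw [h1]
    exact hb hx hy ha hb' hab
  have hRopen : IsOpen (range h) := by
    rw [isOpen_iff_mem_nhds]
    rintro _ ⟨s, rfl⟩
    apply open_mapping hh hnc s
    rw [mem_map]
    exact Filter.univ_mem' fun s => mem_range_self s
  have hV2 : IsOpen (D \ range h) := by
    rw [isOpen_iff_mem_nhds]
    rintro ζ ⟨hζD, hζ⟩
    have hLU : (U : Set (M k)) ∈ 𝓝 (L ζ) := U.isOpen.mem_nhds (hr hζD)
    obtain ⟨K, hK, hKU, hKc⟩ := local_compact_nhds hLU
    have hc : IsCompact (u '' (u ⁻¹' K)) := (hu.proper K hKc hKU).image hu.continuous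
    have hcl : IsClosed (u '' (u ⁻¹' K)) := hc.isClosed
    have hnot : L ζ ∉ u '' (u ⁻¹' K) := by
      rintro ⟨s, -, hs⟩
      apply hζ
      rw [huL] at hs
      exact ⟨s, hLinj _ _ hs⟩
    have h1 : (u '' (u ⁻¹' K))ᶜ ∩ K ∈ 𝓝 (L ζ) := Filter.inter_mem (hcl.isOpen_compl.mem_nhds hnot) hK
    have h2 : L ⁻¹' ((u '' (u ⁻¹' K))ᶜ ∩ K) ∈ 𝓝 ζ := hL.continuousAt h1
    filter_upwards [h2, hDopen.mem_nhds hζD] with ξ hξ hξD
    refine ⟨hξD, ?_⟩
    rintro ⟨s, rfl⟩
    apply hξ.1
    refine ⟨s, ?_, ?_⟩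
    · change u s ∈ K
      rw [huL]; exact hξ.2
    · exact huL s
  have hsub : D ⊆ range h := by
    apply IsPreconnected.subset_left_of_subset_union hRopen hV2
    · exact disjoint_sdiff_right
    · intro ζ hζ
      by_cases hζr : ζ ∈ range h
      · exact Or.inl hζr
      · exact Or.inr ⟨hζ, hζr⟩
    · refine ⟨h s₀, ?_, mem_range_self _⟩
      change L (h s₀) ∈ Metric.ball (0 : M k) r
      rw [← huL]; exact hs₀
    · exact hDconv.isPreconnected
  -- the middle point
  set m : ℂ := ((h s₀).im : ℂ) * Complex.I with hm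
  have hmD : m ∈ D := by
    change L m ∈ Metric.ball (0 : M k) r
    rw [mem_ball_zero_iff, norm_lt_iff']
    rw [huL, mem_ball_zero_iff, norm_lt_iff'] at hs₀
    refine ⟨lt_of_le_of_lt ?_ hs₀.1, lt_of_le_of_lt ?_ hs₀.2.1, hs₀.2.2⟩
    · apply norm_le_of_re_zero
      · simp [L, hm, hp1]
      · simp [L, hm]
    · apply norm_le_of_re_zero
      · simp [L, hm, hp2]
      · simp [L, hm]
  obtain ⟨ε, hε, hb⟩ := Metric.isOpen_iff.mp hDopen m hmD
  have h3 : m - (ε / 2 : ℝ) ∈ Metric.ball m ε := by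
    rw [Metric.mem_ball, dist_eq_norm, sub_sub_cancel_left, norm_neg, Complex.norm_real,
      Real.norm_of_nonneg (by positivity)]
    linarith
  obtain ⟨s, hs⟩ := hsub (hb h3)
  have h4 := hre s
  rw [hs] at h4
  simp [hm] at h4
  linarith

/-- **Avoidance**: a proper holomorphic curve in `U` contained in `Supp` misses every ball around
`0` contained in `U`. -/
theorem curve_avoid [IsManifold 𝓘(ℂ, ℂ) 1 S] [ConnectedSpace S] {U : Opens (M k)} {u : S → M k}
    (hu : IsPCurve U u) {r : ℝ} (hr : Metric.ball (0 : M k) r ⊆ U) (hS : ∀ s, u s ∈ Supp k)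
    (s₀ : S) : u s₀ ∉ Metric.ball (0 : M k) r := by
  set f : S → ℂ := fun s => (u s).1.1 with hf
  set g : S → ℂ := fun s => (u s).1.2 with hg
  have hfd : MDifferentiable 𝓘(ℂ, ℂ) 𝓘(ℂ, ℂ) f :=
    (ContinuousLinearMap.fst ℂ ℂ ℂ).differentiable.mdifferentiable.comp hu.holo
  have hgd : MDifferentiable 𝓘(ℂ, ℂ) 𝓘(ℂ, ℂ) g :=
    (ContinuousLinearMap.snd ℂ ℂ ℂ).differentiable.mdifferentiable.comp hu.holo
  have hnc : ¬ ((∃ c, ∀ s, f s = c) ∧ ∃ c, ∀ s, g s = c) := by
    rintro ⟨⟨c, hc⟩, ⟨d, hd⟩⟩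
    apply hu.not_const
    intro s s'
    exact Prod.ext ((hc s).trans (hc s').symm) ((hd s).trans (hd s').symm)
  have hfc : Continuous f := hfd.continuous
  have hgc : Continuous g := hgd.continuous
  set F₁ : Set S := {s | (f s).re = 0} with hF₁
  set F₂ : Set S := {s | (g s).re = 0} with hF₂
  set F₃ : Set S := {s | (f s).re = (g s).re} with hF₃
  have hc₁ : IsClosed F₁ := isClosed_eq (Complex.continuous_re.comp hfc) continuous_const
  have hc₂ : IsClosed F₂ := isClosed_eq (Complex.continuous_re.comp hgc) continuous_const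
  have hc₃ : IsClosed F₃ := isClosed_eq (Complex.continuous_re.comp hfc)
    (Complex.continuous_re.comp hgc)
  have hcov : ∀ s, s ∈ F₁ ∨ s ∈ F₂ ∨ s ∈ F₃ := by
    intro s
    rcases (hS s).2 with h | h | h
    · exact Or.inl h.1
    · exact Or.inr (Or.inl h.1)
    · exact Or.inr (Or.inr h.1)
  have hint : (interior F₁).Nonempty ∨ (interior F₂).Nonempty ∨ (interior F₃).Nonempty := by
    by_contra hno
    push Not at hno
    obtain ⟨h1, h2, h3⟩ := hno
    have d1 : Dense F₁ᶜ := interior_eq_empty_iff_dense_compl.mp h1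
    have d2 : Dense F₂ᶜ := interior_eq_empty_iff_dense_compl.mp h2
    have d12 : Dense (F₁ᶜ ∩ F₂ᶜ) := d1.inter_of_isOpen_left d2 hc₁.isOpen_compl
    have hsub : F₁ᶜ ∩ F₂ᶜ ⊆ F₃ := by
      intro s hs
      rcases hcov s with h | h | h
      · exact absurd h hs.1
      · exact absurd h hs.2
      · exact h
    have h4 : F₃ = univ := by
      have := (d12.mono hsub).closure_eq
      rwa [hc₃.closure_eq] at this
    rw [h4, interior_univ] at h3
    exact (univ_nonempty (α := S)).ne_empty h3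
  rcases hint with ⟨s₁, h1⟩ | ⟨s₁, h1⟩ | ⟨s₁, h1⟩
  · -- `f` is constant
    have h2 : ∀ᶠ s in 𝓝 s₁, (f s).re = 0 := mem_interior_iff_mem_nhds.mp h1
    obtain ⟨c, hc⟩ := const_of_re_const hfd h2
    have hcre : c.re = 0 := by rw [← hc s₁]; exact h2.self_of_nhds
    have hgn : ¬ ∃ d, ∀ s, g s = d := fun h => hnc ⟨⟨c, hc⟩, h⟩
    have hgre : ∀ s, (g s).re ≤ 0 := by
      intro s
      have hfs : (f s).re = 0 := by rw [hc s]; exact hcre
      rcases (hS s).2 with h | h | h
      · exact h.2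
      · exact h.1.le
      · have : (g s).re = (f s).re := h.1.symm
        rw [this, hfs]
    refine line_case hu hr (c, 0) hcre rfl (0, -1) (by simp) (h := fun s => -g s) hgd.neg
      ?_ ?_ ?_ s₀
    · rintro ⟨d, hd⟩
      exact hgn ⟨-d, fun s => by rw [← hd s, neg_neg]⟩
    · intro s
      have := hgre s
      simp only [Complex.neg_re]
      linarith
    · intro s
      refine Prod.ext (Prod.ext ?_ ?_) (hS s).1
      · simp only [Complex.ofReal_zero, mul_zero, add_zero]
        exact hc s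
      · simp [hg]
  · have h2 : ∀ᶠ s in 𝓝 s₁, (g s).re = 0 := mem_interior_iff_mem_nhds.mp h1
    obtain ⟨c, hc⟩ := const_of_re_const hgd h2
    have hcre : c.re = 0 := by rw [← hc s₁]; exact h2.self_of_nhds
    have hfn : ¬ ∃ d, ∀ s, f s = d := fun h => hnc ⟨h, ⟨c, hc⟩⟩
    have hfre : ∀ s, (f s).re ≤ 0 := by
      intro s
      have hgs : (g s).re = 0 := by rw [hc s]; exact hcre
      rcases (hS s).2 with h | h | h
      · exact h.1.le
      · exact h.2
      · have : (f s).re = (g s).re := h.1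
        rw [this, hgs]
    refine line_case hu hr (0, c) rfl hcre (-1, 0) (by simp) (h := fun s => -f s) hfd.neg
      ?_ ?_ ?_ s₀
    · rintro ⟨d, hd⟩
      exact hfn ⟨-d, fun s => by rw [← hd s, neg_neg]⟩
    · intro s
      have := hfre s
      simp only [Complex.neg_re]
      linarith
    · intro s
      refine Prod.ext (Prod.ext ?_ ?_) (hS s).1
      · simp [hf]
      · simp only [Complex.ofReal_zero, mul_zero, add_zero]
        exact hc s
  · have h2 : ∀ᶠ s in 𝓝 s₁, (f s - g s).re = 0 := by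
      filter_upwards [mem_interior_iff_mem_nhds.mp h1] with s hs
      rw [Complex.sub_re, sub_eq_zero]
      exact hs
    obtain ⟨c, hc⟩ := const_of_re_const (f := fun s => f s - g s) (hfd.sub hgd) h2
    have hcre : c.re = 0 := by rw [← hc s₁]; exact h2.self_of_nhds
    have hfg : ∀ s, (f s).re = (g s).re := by
      intro s
      have := congrArg Complex.re (hc s)
      rw [hcre, Complex.sub_re] at this
      linarith
    have hgs : ∀ s, g s = f s - c := by
      intro s
      rw [← hc s]; ring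
    have hfn : ¬ ∃ d, ∀ s, f s = d := by
      rintro ⟨d, hd⟩
      exact hnc ⟨⟨d, hd⟩, ⟨d - c, fun s => by rw [hgs s, hd s]⟩⟩
    refine line_case hu hr (0, -c) rfl (by simp [hcre]) (1, 1) (by simp) (h := f) hfd hfn
      ?_ ?_ s₀
    · intro s
      rcases (hS s).2 with h | h | h
      · exact h.1.symm.le
      · rw [hfg s]; exact h.1.symm.le
      · exact h.2
    · intro s
      refine Prod.ext (Prod.ext ?_ ?_) (hS s).1
      · simp [hf]
      · simp only [Complex.ofReal_one, mul_one]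
        have := hgs s
        rw [neg_add_eq_sub]
        exact this

end Pool.Agent.X183.CCyc
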