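import Pool.Agent.X183.CCyc.Cyc

/-!
# From the general definitions to the working definitions
-/

open Set Filter Topology TopologicalSpace MeasureTheory
open scoped Manifold ContDiff Distributions

namespace Pool.Agent.X183.CCyc

variable {k : ℕ}

theorem mem_F (x : M k) : x ∈ (stdFol k).F ↔ x.2 = 0 := Iff.rfl

theorem J_apply (x : M k) : (stdFol k).J x = ((Complex.I * x.1.1, Complex.I * x.1.2), 0) := rfl

theorem toPCurve {S : Type} [TopologicalSpace S] [ChartedSpace ℂ S] [IsManifold 𝓘(ℂ, ℂ) 1 S]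
    [ConnectedSpace S] {U : Opens (M k)} {u : S → M k} (h : (stdFol k).IsCurve U u) :
    IsPCurve U u := by
  obtain ⟨s₀⟩ := (inferInstance : Nonempty S)
  have hleaf : ∀ s, (u s).2 = (u s₀).2 := by
    intro s
    have h1 := (mem_F _).mp (h.leaf s s₀)
    have h2 : (u s).2 - (u s₀).2 = 0 := h1
    exact sub_eq_zero.mp h2
  refine ⟨h.mapsTo, ⟨_, hleaf⟩, ?_, h.proper, ?_⟩
  · intro p
    set e := chartAt ℂ p with he
    have hp : p ∈ e.source := mem_chart_source ℂ p
    have hz : e p ∈ e.target := e.map_source hp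
    have hd : DifferentiableAt ℝ (rd u p) (e p) := h.diff p _ hz
    set L : ℂ →L[ℝ] M k := fderiv ℝ (rd u p) (e p) with hL
    have hLd : HasFDerivAt (rd u p) L (e p) := hd.hasFDerivAt
    set g : ℂ → ℂ × ℂ := fun z => (rd u p z).1 with hg
    have hgd : HasFDerivAt g ((ContinuousLinearMap.fst ℝ (ℂ × ℂ) (Fin k → ℝ)).comp L) (e p) :=
      (ContinuousLinearMap.fst ℝ (ℂ × ℂ) (Fin k → ℝ)).hasFDerivAt.comp (e p) hLd
    have hI : ∀ v : ℂ, (L (Complex.I * v)).1 = Complex.I • (L v).1 := by
      intro v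
      have h1 := (h.holo p _ hz v).2
      have h2 : L (Complex.I * v) = (stdFol k).J (L v) := h1
      rw [h2, J_apply]
      rfl
    have hlin : ∀ v : ℂ, (L v).1 = v • (L 1).1 := by
      intro v
      have h1 : v = v.re • (1 : ℂ) + v.im • (Complex.I * 1) := by
        apply Complex.ext <;> simp
      have h2 : L v = v.re • L 1 + v.im • L (Complex.I * 1) := by
        conv_lhs => rw [h1]
        rw [map_add, map_smul, map_smul]
      rw [h2, Prod.fst_add, Prod.smul_fst, Prod.smul_fst, hI]
      have h3 : v • (L 1).1 = (v.re : ℂ) • (L 1).1 + ((v.im : ℂ) * Complex.I) • (L 1).1 := by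
        rw [← add_smul, Complex.re_add_im]
      rw [h3, mul_smul]
      rfl
    have hc : HasFDerivAt g (ContinuousLinearMap.toSpanSingleton ℂ ((L 1).1)) (e p) := by
      apply hasFDerivAt_of_restrictScalars ℝ hgd
      ext v
      · simp [hlin v]
      · simp [hlin v]
    have hcomp : MDifferentiableAt 𝓘(ℂ, ℂ) 𝓘(ℂ, ℂ × ℂ) (g ∘ e) p :=
      (hc.differentiableAt.mdifferentiableAt).comp p
        (mdifferentiableAt_atlas (chart_mem_atlas ℂ p) hp)
    refine hcomp.congr_of_eventuallyEq ?_
    filter_upwards [e.open_source.mem_nhds hp] with s hs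
    simp only [Function.comp_apply, hg, rd, ← he, e.left_inv hs]
  · intro hc
    obtain ⟨s, ⟨v, hv⟩, -⟩ := h.somewhere_inj
    apply hv
    have h1 : rd u s = fun _ => u s₀ := by
      funext z
      exact Prod.ext (hc _ _) (hleaf _)
    rw [drd, h1]
    simp

theorem toPullback {S : Type} [TopologicalSpace S] [ChartedSpace ℂ S] {u : S → M k}
    {α : M k → (M k) [⋀^Fin 2]→L[ℝ] ℝ} {I : ℝ} (h : IsPullbackInt u α I) :
    IsPullbackIntegral u α I := h

theorem cyc_gcycle : GIsCycle (E := M k) (cyc k) := by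
  intro β α h
  have h1 : α = dForm β := by
    apply TestFunction.ext
    intro x
    exact congrFun h x
  rw [h1]
  exact cyc_isCycle β

theorem comb_zero {U : Opens (M k)} : (stdFol k).IsDiracComb (0 : GCurrent 2 U) :=
  ⟨0, fun _ => 0, fun _ => 0, fun i => i.elim0, fun i => i.elim0, fun α => by
    simp only [Finset.univ_eq_empty, Finset.sum_empty]; rfl⟩

theorem comb_add {U : Opens (M k)} {S T : GCurrent 2 U} (hS : (stdFol k).IsDiracComb S)
    (hT : (stdFol k).IsDiracComb T) : (stdFol k).IsDiracComb (S + T) := by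
  obtain ⟨n, r, A, hr, hA, hSe⟩ := hS
  obtain ⟨m, r', A', hr', hA', hTe⟩ := hT
  refine ⟨n + m, Fin.append r r', Fin.append A A', ?_, ?_, ?_⟩
  · intro i
    refine Fin.addCases (fun i => ?_) (fun i => ?_) i
    · rw [Fin.append_left]; exact hr i
    · rw [Fin.append_right]; exact hr' i
  · intro i
    refine Fin.addCases (fun i => ?_) (fun i => ?_) i
    · rw [Fin.append_left]; exact hA i
    · rw [Fin.append_right]; exact hA' i
  · intro α
    rw [Fin.sum_univ_add]
    simp only [Fin.append_left, Fin.append_right]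
    rw [← hSe, ← hTe]
    rfl

theorem comb_smul {U : Opens (M k)} {S : GCurrent 2 U} (hS : (stdFol k).IsDiracComb S)
    (t : {r : ℝ // 0 ≤ r}) : (stdFol k).IsDiracComb (t • S) := by
  obtain ⟨n, r, A, hr, hA, hSe⟩ := hS
  refine ⟨n, fun i => t.1 * r i, A, fun i => mul_nonneg t.2 (hr i), hA, fun α => ?_⟩
  have h1 : GCurrent.ev (t • S) α = t.1 * S.ev α := rfl
  rw [h1, hSe, Finset.mul_sum]
  apply Finset.sum_congr rfl
  intro i _
  ring

theorem comb_dirac {U : Opens (M k)} {T : GCurrent 2 U} (hT : T ∈ diracSet k U) :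
    (stdFol k).IsDiracComb T := by
  obtain ⟨y, hy, v, rfl⟩ := hT
  refine ⟨1, fun _ => 1, fun _ => dirac y (tang k v) (tang k (Complex.I • v)), fun _ => zero_le_one,
    fun _ => ⟨y, hy, tang k v, rfl, fun α => rfl⟩, fun α => ?_⟩
  simp

theorem cyc_gccurrent : (stdFol k).IsCCurrent (cyc k) := by
  have h1 : (cyc k) ∈ closure (Submodule.span {r : ℝ // 0 ≤ r} (diracSet k ⊤) :
    Set (Current k 2 ⊤)) := cyc_isCCurrent
  refine closure_mono ?_ h1
  intro T hT
  change (stdFol k).IsDiracComb T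
  refine Submodule.span_induction (p := fun T _ => (stdFol k).IsDiracComb T) ?_ ?_ ?_ ?_ hT
  · intro T hT; exact comb_dirac hT
  · exact comb_zero
  · intro S T _ _ hS hT; exact comb_add hS hT
  · intro t S _ hS; exact comb_smul hS t

end Pool.Agent.X183.CCyc
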