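import Pool.Agent.X183.CCyc.Pos

/-!
# The cycle
-/

open Set Filter Topology TopologicalSpace MeasureTheory
open scoped Manifold ContDiff Distributions

namespace Pool.Agent.X183.CCyc

variable {k : ℕ}

/-- parameter space of the half planes -/
abbrev V := (ℝ × ℝ) × ℝ

/-- Lebesgue measure on the half space `s > 0`. -/
noncomputable def m₀ : Measure V := (volume : Measure (ℝ × ℝ)).prod (volume.restrict (Ioi 0))

instance : IsFiniteMeasureOnCompacts m₀ := by unfold m₀; infer_instance

instance : SFinite m₀ := by unfold m₀; infer_instance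

theorem integral_dir_s (H : V → ℝ) (hH : ContDiff ℝ 1 H) (hs : HasCompactSupport H) :
    ∫ q, fderiv ℝ H q (0, 1) ∂m₀ = - ∫ y : ℝ × ℝ, H (y, 0) := by
  have hd : Continuous fun q => fderiv ℝ H q (0, 1) :=
    (hH.continuous_fderiv (by simp)).clm_apply continuous_const
  have hdc : HasCompactSupport fun q => fderiv ℝ H q (0, 1) := hs.fderiv_apply ℝ _
  have hint : Integrable (fun q => fderiv ℝ H q (0, 1)) m₀ := hd.integrable_of_hasCompactSupport hdc
  rw [m₀] at hint ⊢
  rw [integral_prod _ hint, ← integral_neg]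
  congr 1
  funext y
  have hemb : IsClosedEmbedding fun s : ℝ => ((y, s) : V) := by
    refine ⟨⟨?_, ?_⟩, ?_⟩
    · exact isInducing_prodMkRight y
    · intro a b hab
      exact congrArg Prod.snd hab
    · have : range (fun s : ℝ => ((y, s) : V)) = {q | q.1 = y} := by
        ext q
        constructor
        · rintro ⟨s, rfl⟩; rfl
        · intro h
          exact ⟨q.2, Prod.ext (by exact (show q.1 = y from h).symm) rfl⟩
      rw [this]
      exact isClosed_eq continuous_fst continuous_const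
  have h1 : ContDiff ℝ 1 fun s : ℝ => H (y, s) := hH.comp (by fun_prop)
  have h2 : HasCompactSupport fun s : ℝ => H (y, s) := hs.comp_isClosedEmbedding hemb
  have h3 := h2.integral_Ioi_deriv_eq h1 0
  rw [← h3]
  congr 1
  funext s
  have h4 : HasDerivAt (fun s : ℝ => ((y, s) : V)) (0, 1) s :=
    (hasDerivAt_const s y).prodMk (hasDerivAt_id s)
  have h5 := ((hH.differentiable (by simp)) (y, s)).hasFDerivAt.comp_hasDerivAt s h4
  exact h5.deriv.symm

theorem integral_dir_y (H : V → ℝ) (hH : ContDiff ℝ 1 H) (hs : HasCompactSupport H)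
    (e : ℝ × ℝ) : ∫ q, fderiv ℝ H q (e, 0) ∂m₀ = 0 := by
  have hd : Continuous fun q => fderiv ℝ H q (e, 0) :=
    (hH.continuous_fderiv (by simp)).clm_apply continuous_const
  have hdc : HasCompactSupport fun q => fderiv ℝ H q (e, 0) := hs.fderiv_apply ℝ _
  have hint : Integrable (fun q => fderiv ℝ H q (e, 0)) m₀ := hd.integrable_of_hasCompactSupport hdc
  rw [m₀] at hint ⊢
  rw [integral_prod_symm _ hint]
  apply integral_eq_zero_of_ae
  filter_upwards with s
  have hemb : IsClosedEmbedding fun y : ℝ × ℝ => ((y, s) : V) := by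
    refine ⟨⟨?_, ?_⟩, ?_⟩
    · exact isInducing_prodMkLeft s
    · intro a b hab
      exact congrArg Prod.fst hab
    · have : range (fun y : ℝ × ℝ => ((y, s) : V)) = {q | q.2 = s} := by
        ext q
        constructor
        · rintro ⟨s, rfl⟩; rfl
        · intro h
          exact ⟨q.1, Prod.ext rfl (by exact (show q.2 = s from h).symm)⟩
      rw [this]
      exact isClosed_eq continuous_snd continuous_const
  set G : ℝ × ℝ → ℝ := fun y => H (y, s) with hG
  have h1 : ContDiff ℝ 1 G := hH.comp (by fun_prop)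
  have h2 : HasCompactSupport G := hs.comp_isClosedEmbedding hemb
  have h5 : ∀ y, fderiv ℝ H (y, s) (e, 0) = fderiv ℝ G y e := by
    intro y
    have h4 : HasFDerivAt (fun y : ℝ × ℝ => ((y, s) : V))
        ((ContinuousLinearMap.id ℝ (ℝ × ℝ)).prod 0) y :=
      (hasFDerivAt_id y).prodMk (hasFDerivAt_const s y)
    have h6 := ((hH.differentiable (by simp)) (y, s)).hasFDerivAt.comp y h4
    have h7 : fderiv ℝ G y = (fderiv ℝ H (y, s)).comp ((ContinuousLinearMap.id ℝ (ℝ × ℝ)).prod 0) :=
      h6.fderiv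
    rw [h7]
    simp
  simp only [h5]
  have h6 := integral_bilinear_hasLineDerivAt_right_eq_neg_left_of_integrable
    (μ := (volume : Measure (ℝ × ℝ))) (f := G) (f' := fun y => fderiv ℝ G y e)
    (g := fun _ => (1 : ℝ)) (g' := fun _ => (0 : ℝ)) (v := e) (B := ContinuousLinearMap.mul ℝ ℝ)
    (by
      simp only [ContinuousLinearMap.mul_apply', mul_one]
      exact ((h1.continuous_fderiv (by simp)).clm_apply
        continuous_const).integrable_of_hasCompactSupport (h2.fderiv_apply ℝ _))
    (by simp)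
    (by
      simp only [ContinuousLinearMap.mul_apply', mul_one]
      exact h1.continuous.integrable_of_hasCompactSupport h2)
    (fun y _ => ((h1.differentiable (by simp)) y).hasFDerivAt.hasLineDerivAt e)
    (fun y _ => (hasFDerivAt_const (1 : ℝ) y).hasLineDerivAt e)
  simp only [ContinuousLinearMap.mul_apply', mul_one, mul_zero, integral_zero] at h6
  simp only [Pi.zero_apply]
  linarith

/-- the complex vector with real coordinates `e`. -/
def evec (e : ℝ × ℝ) : ℂ × ℂ := ((e.1 : ℂ), (e.2 : ℂ))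

/-- The parametrisation of the family of half planes `i y + s e + i t e`. -/
def Phi (k : ℕ) (e : ℝ × ℝ) : V →ₗ[ℝ] M k where
  toFun q := (((q.2 * e.1 : ℝ) + (q.1.1 : ℝ) * Complex.I, (q.2 * e.2 : ℝ) + (q.1.2 : ℝ) * Complex.I), 0)
  map_add' p q := by
    refine Prod.ext (Prod.ext ?_ ?_) (by simp)
    · simp; ring
    · simp; ring
  map_smul' r q := by
    refine Prod.ext (Prod.ext ?_ ?_) (by simp)
    · simp; ring
    · simp; ring

theorem Phi_apply (e : ℝ × ℝ) (q : V) : Phi k e q =
    (((q.2 * e.1 : ℝ) + (q.1.1 : ℝ) * Complex.I, (q.2 * e.2 : ℝ) + (q.1.2 : ℝ) * Complex.I), 0) := rfl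

theorem Phi_inj {e : ℝ × ℝ} (he : e ≠ 0) : Function.Injective (Phi k e) := by
  intro p q h
  rw [Phi_apply, Phi_apply] at h
  have h1 := congrArg (fun x : M k => x.1.1) h
  have h2 := congrArg (fun x : M k => x.1.2) h
  simp only at h1 h2
  have a1 := congrArg Complex.re h1
  have a2 := congrArg Complex.im h1
  have b1 := congrArg Complex.re h2
  have b2 := congrArg Complex.im h2
  simp at a1 a2 b1 b2
  refine Prod.ext (Prod.ext a2 b2) ?_
  rcases a1 with a1 | a1
  · exact a1
  · rcases b1 with b1 | b1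
    · exact b1
    · exact absurd (Prod.ext a1 b1) he

theorem Phi_emb {e : ℝ × ℝ} (he : e ≠ 0) : IsClosedEmbedding (Phi k e) :=
  LinearMap.isClosedEmbedding_of_injective (LinearMap.ker_eq_bot.mpr (Phi_inj he))

/-- as a continuous linear map -/
noncomputable def PhiL (k : ℕ) (e : ℝ × ℝ) : V →L[ℝ] M k := LinearMap.toContinuousLinearMap (Phi k e)

theorem PhiL_apply (e : ℝ × ℝ) (q : V) : PhiL k e q = Phi k e q := rfl

theorem Phi_s (e : ℝ × ℝ) : Phi k e (0, 1) = tang k (evec e) := by
  rw [Phi_apply, tang, evec]; simp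

theorem Phi_y (e : ℝ × ℝ) : Phi k e (e, 0) = tang k (Complex.I • evec e) := by
  rw [Phi_apply, tang, evec]
  refine Prod.ext (Prod.ext ?_ ?_) rfl
  · simp [mul_comm]
  · simp [mul_comm]

/-- the measure of the family -/
noncomputable def mu (k : ℕ) (e : ℝ × ℝ) : Measure (M k) := m₀.map (Phi k e)

theorem mu_locfin {e : ℝ × ℝ} (he : e ≠ 0) : IsLocallyFiniteMeasure (mu k e) := by
  constructor
  intro x
  obtain ⟨K, hK, hKc⟩ := exists_compact_mem_nhds x
  refine ⟨K, hKc, ?_⟩
  rw [mu, Measure.map_apply (Phi_emb he).continuous.measurable hK.measurableSet]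
  exact ((Phi_emb he).isCompact_preimage hK).measure_lt_top

/-- the bilinear pairing used below -/
noncomputable def pairB (k : ℕ) (v w : M k) : ((M k) [⋀^Fin 2]→L[ℝ] ℝ) →L[ℝ] ℝ →L[ℝ] ℝ :=
  (ContinuousLinearMap.mul ℝ ℝ).comp (ContinuousAlternatingMap.apply ℝ (M k) ℝ ![v, w])

theorem pairB_apply (v w : M k) (α : (M k) [⋀^Fin 2]→L[ℝ] ℝ) (t : ℝ) :
    pairB k v w α t = α ![v, w] * t := rfl

/-- one family of half planes as a current -/
noncomputable def cj (k : ℕ) (e : ℝ × ℝ) : Form k 2 ⊤ →L[ℝ] ℝ :=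
  TestFunction.integralAgainstBilinCLM (pairB k (tang k (evec e)) (tang k (Complex.I • evec e)))
    (mu k e) fun _ => (1 : ℝ)

theorem cj_apply {e : ℝ × ℝ} (he : e ≠ 0) (α : Form k 2 ⊤) :
    cj k e α = ∫ q, α (Phi k e q) ![tang k (evec e), tang k (Complex.I • evec e)] ∂m₀ := by
  have := mu_locfin (k := k) he
  rw [cj, TestFunction.integralAgainstBilinCLM_eq_integral]
  · simp only [pairB_apply, mul_one]
    rw [mu, (Phi_emb he).measurableEmbedding.integral_map]
  · exact (locallyIntegrable_const 1).locallyIntegrableOn _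

theorem form_continuous (α : Form k 2 ⊤) (v w : M k) : Continuous fun x => α x ![v, w] :=
  (ContinuousAlternatingMap.apply ℝ (M k) ℝ ![v, w]).continuous.comp α.continuous

theorem form_integrable {e : ℝ × ℝ} (he : e ≠ 0) (α : Form k 2 ⊤) (v w : M k) :
    Integrable (fun q => α (Phi k e q) ![v, w]) m₀ := by
  apply Continuous.integrable_of_hasCompactSupport
  · exact (form_continuous α v w).comp (Phi_emb he).continuous
  · have h1 : HasCompactSupport fun x => α x ![v, w] :=
      α.hasCompactSupport.comp_left (g := fun L : (M k) [⋀^Fin 2]→L[ℝ] ℝ => L ![v, w]) rfl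
    exact h1.comp_isClosedEmbedding (Phi_emb he)

theorem cj_nonneg {e : ℝ × ℝ} (he : e ≠ 0) (α : Form k 2 ⊤)
    (h : ∀ (y : M k) (v : ℂ × ℂ), 0 ≤ α y ![tang k v, tang k (Complex.I • v)]) : 0 ≤ cj k e α := by
  rw [cj_apply he]
  exact integral_nonneg fun q => h _ _

theorem cj_d {e : ℝ × ℝ} (he : e ≠ 0) (β : Form k 1 ⊤) :
    cj k e (dForm β) = - ∫ y : ℝ × ℝ, β (((y.1 : ℝ) * Complex.I, (y.2 : ℝ) * Complex.I), 0)
      ![tang k (Complex.I • evec e)] := by
  rw [cj_apply he]
  set v := tang k (evec e) with hv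
  set w := tang k (Complex.I • evec e) with hw
  have hβd : ∀ x, DifferentiableAt ℝ β x := fun x => (β.contDiff.differentiable (by simp)) x
  have hex : ∀ x, dForm β x ![v, w] = fderiv ℝ (fun x => β x ![w]) x v -
      fderiv ℝ (fun x => β x ![v]) x w := by
    intro x
    change extDeriv β x ![v, w] = _
    rw [extDeriv_apply (hβd x), Fin.sum_univ_two]
    have r0 : (0 : Fin 2).removeNth ![v, w] = ![w] := by
      funext i; fin_cases i; rfl
    have r1 : (1 : Fin 2).removeNth ![v, w] = ![v] := by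
      funext i; fin_cases i; rfl
    rw [r0, r1]
    simp [sub_eq_add_neg]
  have hsm : ∀ z : M k, ContDiff ℝ 1 fun x => β x ![z] := by
    intro z
    exact (ContinuousAlternatingMap.apply ℝ (M k) ℝ ![z]).contDiff.comp
      (β.contDiff.of_le (by exact_mod_cast le_top))
  have hcs : ∀ z : M k, HasCompactSupport fun x => β x ![z] := fun z =>
    β.hasCompactSupport.comp_left (g := fun L : (M k) [⋀^Fin 1]→L[ℝ] ℝ => L ![z]) rfl
  -- compositions
  have hsm' : ∀ z : M k, ContDiff ℝ 1 fun q => β (Phi k e q) ![z] := fun z =>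
    (hsm z).comp (PhiL k e).contDiff
  have hcs' : ∀ z : M k, HasCompactSupport fun q => β (Phi k e q) ![z] := fun z =>
    (hcs z).comp_isClosedEmbedding (Phi_emb he)
  have hder : ∀ (z : M k) (q d : V), fderiv ℝ (fun q => β (Phi k e q) ![z]) q d =
      fderiv ℝ (fun x => β x ![z]) (Phi k e q) (Phi k e d) := by
    intro z q d
    have h1 : HasFDerivAt (fun x => β x ![z]) (fderiv ℝ (fun x => β x ![z]) (PhiL k e q))
        (PhiL k e q) := ((hsm z).differentiable (by simp) _).hasFDerivAt
    have h2 := h1.comp q (PhiL k e).hasFDerivAt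
    have h3 : fderiv ℝ (fun q => β (Phi k e q) ![z]) q =
      (fderiv ℝ (fun x => β x ![z]) (PhiL k e q)).comp (PhiL k e) := h2.fderiv
    rw [h3]
    rfl
  have i1 : Integrable (fun q => fderiv ℝ (fun q => β (Phi k e q) ![w]) q (0, 1)) m₀ :=
    ((((hsm' w).continuous_fderiv (by simp)).clm_apply
      continuous_const)).integrable_of_hasCompactSupport ((hcs' w).fderiv_apply ℝ _)
  have i2 : Integrable (fun q => fderiv ℝ (fun q => β (Phi k e q) ![v]) q (e, 0)) m₀ :=
    ((((hsm' v).continuous_fderiv (by simp)).clm_apply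
      continuous_const)).integrable_of_hasCompactSupport ((hcs' v).fderiv_apply ℝ _)
  have hrw : ∀ q, dForm β (Phi k e q) ![v, w] =
      fderiv ℝ (fun q => β (Phi k e q) ![w]) q (0, 1) -
      fderiv ℝ (fun q => β (Phi k e q) ![v]) q (e, 0) := by
    intro q
    rw [hex, hder, hder, Phi_s, Phi_y]
  simp only [hrw]
  rw [integral_sub i1 i2, integral_dir_s _ (hsm' w) (hcs' w), integral_dir_y _ (hsm' v) (hcs' v),
    sub_zero]
  congr 2
  funext y
  rw [Phi_apply]
  simp

/-- The cycle `dd^c max(0, Re ζ, Re η)`, up to normalisation. -/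
noncomputable def cyc (k : ℕ) : Current k 2 ⊤ :=
  (cj k (-1, 0) + cj k (0, -1) + cj k (1, 1) : Form k 2 ⊤ →L[ℝ] ℝ)

theorem cyc_apply (α : Form k 2 ⊤) :
    cyc k α = cj k (-1, 0) α + cj k (0, -1) α + cj k (1, 1) α := rfl

theorem cyc_isCycle : IsCycle (cyc k) := by
  intro β
  rw [cyc_apply, cj_d (by simp), cj_d (by simp), cj_d (by simp)]
  have hadd : ∀ (x v w : M k), β x ![v + w] = β x ![v] + β x ![w] := by
    intro x v w
    have h := (β x).map_update_add ![v] 0 v w
    have e1 : Function.update ![v] 0 (v + w) = ![v + w] := by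
      funext i; fin_cases i; rfl
    have e2 : Function.update ![v] 0 v = ![v] := by
      funext i; fin_cases i; rfl
    have e3 : Function.update ![v] 0 w = ![w] := by
      funext i; fin_cases i; rfl
    rw [e1, e2, e3] at h
    exact h
  have hzero : ∀ x : M k, β x ![(0 : M k)] = 0 := by
    intro x
    have := hadd x 0 0
    rw [add_zero] at this
    linarith
  have hint : ∀ z : M k, Integrable (fun y : ℝ × ℝ =>
      β (((y.1 : ℝ) * Complex.I, (y.2 : ℝ) * Complex.I), 0) ![z]) := by
    intro z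
    have hL : IsClosedEmbedding fun y : ℝ × ℝ =>
        ((((y.1 : ℝ) * Complex.I, (y.2 : ℝ) * Complex.I), 0) : M k) := by
      let L : ℝ × ℝ →ₗ[ℝ] M k :=
        { toFun := fun y => (((y.1 : ℝ) * Complex.I, (y.2 : ℝ) * Complex.I), 0)
          map_add' := by
            intro p q
            refine Prod.ext (Prod.ext ?_ ?_) (by simp)
            · simp; ring
            · simp; ring
          map_smul' := by
            intro r q
            refine Prod.ext (Prod.ext ?_ ?_) (by simp)
            · simp; ring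
            · simp; ring }
      have hinj : Function.Injective L := by
        intro p q h
        have h1 := congrArg (fun x : M k => x.1.1.im) h
        have h2 := congrArg (fun x : M k => x.1.2.im) h
        simp [L] at h1 h2
        exact Prod.ext h1 h2
      exact LinearMap.isClosedEmbedding_of_injective (LinearMap.ker_eq_bot.mpr hinj)
    apply Continuous.integrable_of_hasCompactSupport
    · exact ((ContinuousAlternatingMap.apply ℝ (M k) ℝ ![z]).continuous.comp
        β.continuous).comp hL.continuous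
    · have h1 : HasCompactSupport fun x => β x ![z] :=
        β.hasCompactSupport.comp_left (g := fun L : (M k) [⋀^Fin 1]→L[ℝ] ℝ => L ![z]) rfl
      exact h1.comp_isClosedEmbedding hL
  have hI : ∀ z₀ z₁ z₂ : M k,
      (∫ y : ℝ × ℝ, β (((y.1 : ℝ) * Complex.I, (y.2 : ℝ) * Complex.I), 0) ![z₀]) +
      (∫ y : ℝ × ℝ, β (((y.1 : ℝ) * Complex.I, (y.2 : ℝ) * Complex.I), 0) ![z₁]) +
      (∫ y : ℝ × ℝ, β (((y.1 : ℝ) * Complex.I, (y.2 : ℝ) * Complex.I), 0) ![z₂]) =
      ∫ y : ℝ × ℝ, (β (((y.1 : ℝ) * Complex.I, (y.2 : ℝ) * Complex.I), 0) ![z₀] +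
        β (((y.1 : ℝ) * Complex.I, (y.2 : ℝ) * Complex.I), 0) ![z₁]) +
        β (((y.1 : ℝ) * Complex.I, (y.2 : ℝ) * Complex.I), 0) ![z₂] := by
    intro z₀ z₁ z₂
    rw [← integral_add (hint z₀) (hint z₁)]
    exact (integral_add ((hint z₀).add (hint z₁)) (hint z₂)).symm
  rw [← neg_add, ← neg_add, neg_eq_zero, hI]
  apply integral_eq_zero_of_ae
  filter_upwards with y
  simp only [Pi.zero_apply]
  rw [← hadd, ← hadd]
  have hz : tang k (Complex.I • evec (-1, 0)) + tang k (Complex.I • evec (0, -1)) +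
      tang k (Complex.I • evec (1, 1)) = 0 := by
    simp only [tang, evec]
    refine Prod.ext (Prod.ext ?_ ?_) ?_
    · simp
    · simp
    · simp
  rw [hz, hzero]

instance : LocallyConvexSpace ℝ (Current k 2 (⊤ : Opens (M k))) :=
  inferInstanceAs (LocallyConvexSpace ℝ
    (WeakBilin (topDualPairing ℝ (Form k 2 (⊤ : Opens (M k))))))

theorem cyc_isCCurrent : IsCCurrent (cyc k) := by
  unfold IsCCurrent
  by_contra hnot
  let C : ProperCone ℝ (Current k 2 (⊤ : Opens (M k))) :=
    { toSubmodule := (Submodule.span {r : ℝ // 0 ≤ r} (diracSet k ⊤)).closure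
      isClosed' := isClosed_closure }
  have hnot' : cyc k ∉ C := hnot
  obtain ⟨f, hf1, hf2⟩ := C.hyperplane_separation_point hnot'
  obtain ⟨α, hα⟩ := LinearMap.dualEmbedding_surjective
    (topDualPairing ℝ (Form k 2 (⊤ : Opens (M k)))) f
  have hfα : ∀ T : Current k 2 (⊤ : Opens (M k)), f T = T α := by
    intro T
    rw [← hα]
    rfl
  have hpos : ∀ (y : M k) (v : ℂ × ℂ), 0 ≤ α y ![tang k v, tang k (Complex.I • v)] := by
    intro y v
    have h1 : (dirac y (tang k v) (tang k (Complex.I • v)) : Current k 2 ⊤) ∈ C :=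
      subset_closure (Submodule.subset_span ⟨y, trivial, v, rfl⟩)
    have h2 := hf1 _ h1
    rw [hfα] at h2
    exact h2
  rw [hfα, cyc_apply] at hf2
  have h1 := cj_nonneg (k := k) (e := (-1, 0)) (by simp) α hpos
  have h2 := cj_nonneg (k := k) (e := (0, -1)) (by simp) α hpos
  have h3 := cj_nonneg (k := k) (e := (1, 1)) (by simp) α hpos
  linarith

theorem cj_zero_of_supp {e : ℝ × ℝ} (he : e ≠ 0) (hsupp : ∀ q : V, 0 < q.2 → Phi k e q ∈ Supp k)
    (α : Form k 2 ⊤) (h : ∀ x ∈ Supp k, α x = 0) : cj k e α = 0 := by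
  rw [cj_apply he]
  apply integral_eq_zero_of_ae
  have hae : ∀ᵐ q ∂m₀, q.2 ∈ Ioi (0 : ℝ) := by
    have h1 : ∀ᵐ s ∂(volume.restrict (Ioi (0 : ℝ))), s ∈ Ioi (0 : ℝ) :=
      ae_restrict_mem measurableSet_Ioi
    exact Measure.quasiMeasurePreserving_snd.ae h1
  filter_upwards [hae] with q hq
  rw [h _ (hsupp q hq)]
  rfl

theorem cyc_zero_of_supp (α : Form k 2 ⊤) (h : ∀ x ∈ Supp k, α x = 0) : cyc k α = 0 := by
  rw [cyc_apply, cj_zero_of_supp (by simp) _ α h, cj_zero_of_supp (by simp) _ α h,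
    cj_zero_of_supp (by simp) _ α h]
  · simp
  · intro q hq
    rw [Phi_apply]
    refine ⟨rfl, Or.inr (Or.inr ?_)⟩
    simp [hq.le]
  · intro q hq
    rw [Phi_apply]
    refine ⟨rfl, Or.inl ?_⟩
    simp [hq.le]
  · intro q hq
    rw [Phi_apply]
    refine ⟨rfl, Or.inr (Or.inl ?_)⟩
    simp [hq.le]

theorem cyc_pos (φ : M k → ℝ) (h1 : ContDiff ℝ ∞ φ) (h2 : HasCompactSupport φ)
    (h3 : tsupport φ ⊆ (⊤ : Opens (M k))) (hnn : ∀ x, 0 ≤ φ x) (h0 : 0 < φ 0) :
    0 < cyc k (mkForm φ h1 h2 h3) := by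
  have hpos : ∀ (y : M k) (v : ℂ × ℂ),
      0 ≤ mkForm φ h1 h2 h3 y ![tang k v, tang k (Complex.I • v)] := by
    intro y v
    rw [mkForm_apply, ContinuousAlternatingMap.smul_apply, tang, tang, om_J, smul_eq_mul]
    have := hnn y
    positivity
  have e1 := cj_nonneg (k := k) (e := (-1, 0)) (by simp) _ hpos
  have e2 := cj_nonneg (k := k) (e := (0, -1)) (by simp) _ hpos
  have e3 : 0 < cj k (1, 1) (mkForm φ h1 h2 h3) := by
    have he : ((1, 1) : ℝ × ℝ) ≠ 0 := by simp
    rw [cj_apply he]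
    rw [integral_pos_iff_support_of_nonneg (fun q => hpos _ _) (form_integrable he _ _ _)]
    set W : Set V := {q | 0 < φ (Phi k (1, 1) q)} with hW
    have hWo : IsOpen W := isOpen_lt continuous_const (h1.continuous.comp (Phi_emb he).continuous)
    have h0W : (0 : V) ∈ W := by
      change 0 < φ (Phi k (1, 1) 0)
      rw [map_zero]; exact h0
    obtain ⟨δ, hδ, hb⟩ := Metric.isOpen_iff.mp hWo 0 h0W
    have hsub : (Metric.ball (0 : ℝ × ℝ) δ) ×ˢ (Metric.ball (0 : ℝ) δ) ⊆
        Function.support fun q => mkForm φ h1 h2 h3 (Phi k (1, 1) q)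
          ![tang k (evec (1, 1)), tang k (Complex.I • evec (1, 1))] := by
      intro q hq
      have h4 : q ∈ W := by
        apply hb
        rw [mem_ball_zero_iff, Prod.norm_def, max_lt_iff]
        exact ⟨by simpa using hq.1, by simpa using hq.2⟩
      rw [Function.mem_support, mkForm_apply, ContinuousAlternatingMap.smul_apply, tang, tang, om_J]
      have h5 : 0 < φ (Phi k (1, 1) q) := h4
      simp only [evec, Complex.ofReal_one, norm_one, smul_eq_mul]
      have : 0 < φ (Phi k (1, 1) q) * (1 ^ 2 + 1 ^ 2) := by positivity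
      exact this.ne'
    refine lt_of_lt_of_le ?_ (measure_mono hsub)
    rw [m₀, Measure.prod_prod]
    apply ENNReal.mul_pos
    · exact (Metric.measure_ball_pos volume _ hδ).ne'
    · rw [Measure.restrict_apply Metric.isOpen_ball.measurableSet]
      have h6 : Ioo 0 δ ⊆ Metric.ball (0 : ℝ) δ ∩ Ioi 0 := by
        intro t ht
        refine ⟨?_, ht.1⟩
        rw [mem_ball_zero_iff, Real.norm_of_nonneg ht.1.le]
        exact ht.2
      refine (lt_of_lt_of_le ?_ (measure_mono h6)).ne'
      rw [Real.volume_Ioo]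
      simpa using hδ
  rw [cyc_apply]
  linarith

end Pool.Agent.X183.CCyc
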