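import Mathlib

/-!
# Currents and leafwise complex cycles for linear foliations

The ambient manifold is a real normed space `E` (a flat model), foliated by the translates of a
linear subspace `F`, with a constant leafwise complex structure `J : F → F`, `J² = -1`.
-/

open Set Filter Topology MeasureTheory TopologicalSpace
open scoped Manifold ContDiff Distributions

namespace Pool.Agent.X183.CCyc

section Gen

variable {E : Type} [NormedAddCommGroup E] [NormedSpace ℝ E]

/-- Compactly supported smooth `p`-forms on the open set `U ⊆ E`, with Mathlib's canonical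
LF-topology. -/
abbrev GForm (p : ℕ) (U : Opens E) := 𝓓(U, E [⋀^Fin p]→L[ℝ] ℝ)

/-- the value of a form at a point -/
noncomputable def GForm.at {p : ℕ} {U : Opens E} (α : GForm p U) : E → E [⋀^Fin p]→L[ℝ] ℝ := α

/-- the value of an alternating form on the bivector `v ∧ w` -/
noncomputable def val2 (a : E [⋀^Fin 2]→L[ℝ] ℝ) (v w : E) : ℝ := a ![v, w]

/-- `p`-currents on `U`: continuous linear functionals on compactly supported `p`-forms; this type
carries the weak-* topology. -/
abbrev GCurrent (p : ℕ) (U : Opens E) := WeakDual ℝ (GForm p U)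

/-- evaluation of a current on a form -/
noncomputable def GCurrent.ev {p : ℕ} {U : Opens E} (T : GCurrent p U) (α : GForm p U) : ℝ := T α

/-- `α = dβ` -/
def IsExtDeriv {p : ℕ} {U : Opens E} (β : GForm p U) (α : GForm (p + 1) U) : Prop :=
  α.at = extDeriv β.at

/-- `c` is a cycle: `∂c(β) = c(dβ) = 0` for all compactly supported `1`-forms `β`. -/
def GIsCycle {U : Opens E} (c : GCurrent 2 U) : Prop :=
  ∀ (β : GForm 1 U) (α : GForm 2 U), IsExtDeriv β α → c.ev α = 0

/-- `T` is the Dirac current of the `2`-vector `v ∧ w` at `y`: `α ↦ α_y(v ∧ w)`. -/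
def IsDirac {U : Opens E} (T : GCurrent 2 U) (y v w : E) : Prop :=
  ∀ α : GForm 2 U, T.ev α = val2 (α.at y) v w

/-- A linear foliation of `E` (leaves: the translates of `F`) with a constant leafwise complex
structure `J : F → F`. -/
structure LinFol (E : Type) [NormedAddCommGroup E] [NormedSpace ℝ E] where
  /-- the tangent space of the leaves -/
  F : Submodule ℝ E
  /-- the leafwise complex structure (only its values on `F` matter) -/
  J : E → E
  J_mem : ∀ v ∈ F, J v ∈ F
  J_add : ∀ v ∈ F, ∀ w ∈ F, J (v + w) = J v + J w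
  J_smul : ∀ (r : ℝ), ∀ v ∈ F, J (r • v) = r • J v
  /-- `J² = -1` -/
  J_sq : ∀ v ∈ F, J (J v) = -v

/-- `T` is a finite non-negative combination of Dirac currents of the generators `v ∧ J v`,
`v ∈ T_y F`, of the structure cone. -/
def LinFol.IsDiracComb (D : LinFol E) {U : Opens E} (T : GCurrent 2 U) : Prop :=
  ∃ (n : ℕ) (r : Fin n → ℝ) (S : Fin n → GCurrent 2 U), (∀ i, 0 ≤ r i) ∧
    (∀ i, ∃ y ∈ U, ∃ v ∈ D.F, IsDirac (S i) y v (D.J v)) ∧
    ∀ α : GForm 2 U, T.ev α = ∑ i, r i * (S i).ev α

/-- `C`-currents: the closed convex cone generated by the Dirac currents of the elements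
`v ∧ J v` (whose closed convex hull is the structure cone). -/
def LinFol.IsCCurrent (D : LinFol E) {U : Opens E} (c : GCurrent 2 U) : Prop :=
  c ∈ closure {T : GCurrent 2 U | D.IsDiracComb T}

/-- The map `u` read in the chart at `p`. -/
noncomputable def rd {S : Type} [TopologicalSpace S] [ChartedSpace ℂ S] (u : S → E) (p : S) :
    ℂ → E := fun z => u ((chartAt ℂ p).symm z)

/-- The differential of `u` read in the chart at `p`, at the point `z`. -/
noncomputable def drd {S : Type} [TopologicalSpace S] [ChartedSpace ℂ S] (u : S → E) (p : S)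
    (z : ℂ) (v : ℂ) : E := fderiv ℝ (rd u p) z v

/-- `u : S → E` is a proper, somewhere injective pseudoholomorphic map from the Riemann surface
`S` to the open set `U`, with image in one leaf. -/
structure LinFol.IsCurve (D : LinFol E) {S : Type} [TopologicalSpace S] [ChartedSpace ℂ S]
    (U : Opens E) (u : S → E) : Prop where
  /-- the image lies in `U` -/
  mapsTo : ∀ s, u s ∈ U
  /-- the image lies in one leaf -/
  leaf : ∀ s s', u s - u s' ∈ D.F
  /-- `u` is differentiable in the charts -/
  diff : ∀ p, ∀ z ∈ (chartAt ℂ p).target, DifferentiableAt ℝ (rd u p) z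
  /-- `du ∘ j = J ∘ du` -/
  holo : ∀ p, ∀ z ∈ (chartAt ℂ p).target, ∀ v : ℂ,
    drd u p z v ∈ D.F ∧ drd u p z (Complex.I * v) = D.J (drd u p z v)
  /-- `u : S → U` is continuous and proper -/
  cont : Continuous u
  proper : ∀ K : Set E, IsCompact K → K ⊆ U → IsCompact (u ⁻¹' K)
  /-- `u` is somewhere injective -/
  somewhere_inj : ∃ s, (∃ v, drd u s (chartAt ℂ s s) v ≠ 0) ∧ ∀ s', u s' = u s → s' = s

/-- `I` is the integral `∫_S u^* α`, computed with a finite continuous partition of unity
`ρ_i ≥ 0`, subordinate to charts, with `∑ ρ_i = 1` on `u⁻¹(supp α)`. -/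
def IsPullbackInt {S : Type} [TopologicalSpace S] [ChartedSpace ℂ S] (u : S → E)
    (α : E → E [⋀^Fin 2]→L[ℝ] ℝ) (I : ℝ) : Prop :=
  ∃ (N : ℕ) (p : Fin N → S) (ρ : Fin N → S → ℝ),
    (∀ i, Continuous (ρ i)) ∧ (∀ i s, 0 ≤ ρ i s) ∧ (∀ i, HasCompactSupport (ρ i)) ∧
    (∀ i, tsupport (ρ i) ⊆ (chartAt ℂ (p i)).source) ∧
    (∀ s, u s ∈ tsupport α → ∑ i, ρ i s = 1) ∧
    I = ∑ i, ∫ z in (chartAt ℂ (p i)).target, ρ i ((chartAt ℂ (p i)).symm z) *
      val2 (α (rd u (p i) z)) (drd u (p i) z 1) (drd u (p i) z Complex.I)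

/-- The set `P_U` of pseudoholomorphic curves in `U`, viewed as currents on `U`. -/
def LinFol.P (D : LinFol E) (U : Opens E) : Set (GCurrent 2 U) :=
  {T | ∃ (S : Type) (_ : TopologicalSpace S) (_ : ChartedSpace ℂ S), T2Space S ∧
    ConnectedSpace S ∧ IsManifold 𝓘(ℂ, ℂ) 1 S ∧
    ∃ u : S → E, D.IsCurve U u ∧ ∀ α : GForm 2 U, IsPullbackInt u α.at (T.ev α)}

/-- The current `c` on `E` is, on the open set `U`, a non-negative superposition of
pseudoholomorphic curves: there is a (non-negative) measure `ν` on `P_U` (for some `σ`-algebra for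
which the evaluations are integrable) with `c(α) = ∫ c'(α) dν(c')` for all `2`-forms `α` with
compact support in `U` (`β` is `α` viewed as a form on `E`). -/
def LinFol.IsSuperpositionOn (D : LinFol E) (c : GCurrent 2 (⊤ : Opens E)) (U : Opens E) : Prop :=
  ∃ (_ : MeasurableSpace (D.P U)) (ν : Measure (D.P U)),
    (∀ α : GForm 2 U, Integrable (fun c' : D.P U => GCurrent.ev c'.1 α) ν) ∧
    ∀ (α : GForm 2 U) (β : GForm 2 (⊤ : Opens E)), α.at = β.at →
      c.ev β = ∫ c' : D.P U, GCurrent.ev c'.1 α ∂ν

/-- The negated form of the question for `(E, F, J)` at the point `x`: there is a `C`-cycle `c`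
on `E` which on no open neighbourhood `U` of `x` is a non-negative superposition of
pseudoholomorphic curves of `U`. -/
def LinFol.Counterexample (D : LinFol E) (x : E) : Prop :=
  ∃ c : GCurrent 2 (⊤ : Opens E), GIsCycle c ∧ D.IsCCurrent c ∧
    ∀ U : Opens E, x ∈ U → ¬ D.IsSuperpositionOn c U

end Gen

/-- The manifold `M = ℂ² × ℝ^k`. -/
abbrev M (k : ℕ) := (ℂ × ℂ) × (Fin k → ℝ)

/-- The product foliation of `ℂ² × ℝ^k` by the leaves `ℂ² × {w}`, with the standard complex
structure `(v, 0) ↦ (i v, 0)`. -/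
noncomputable def stdFol (k : ℕ) : LinFol (M k) where
  F :=
    { carrier := {x | x.2 = 0}
      add_mem' := fun {x y} hx hy => by
        have h1 : x.2 = 0 := hx
        have h2 : y.2 = 0 := hy
        change x.2 + y.2 = 0
        rw [h1, h2, add_zero]
      zero_mem' := rfl
      smul_mem' := fun r x hx => by
        have h1 : x.2 = 0 := hx
        change r • x.2 = 0
        rw [h1, smul_zero] }
  J := fun x => ((Complex.I * x.1.1, Complex.I * x.1.2), 0)
  J_mem := fun v _ => rfl
  J_add := fun v _ w _ => by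
    refine Prod.ext (Prod.ext ?_ ?_) (add_zero _).symm
    · exact mul_add _ _ _
    · exact mul_add _ _ _
  J_smul := fun r v _ => by
    refine Prod.ext (Prod.ext ?_ ?_) (smul_zero r).symm
    · exact mul_smul_comm r _ _
    · exact mul_smul_comm r _ _
  J_sq := fun v hv => by
    have h : v.2 = 0 := hv
    refine Prod.ext (Prod.ext ?_ ?_) ?_
    · change Complex.I * (Complex.I * v.1.1) = -v.1.1
      rw [← mul_assoc, Complex.I_mul_I, neg_one_mul]
    · change Complex.I * (Complex.I * v.1.2) = -v.1.2
      rw [← mul_assoc, Complex.I_mul_I, neg_one_mul]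
    · change (0 : Fin k → ℝ) = -v.2
      rw [h, neg_zero]

end Pool.Agent.X183.CCyc
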