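import Pool.Agent.X183.CCyc.Avoid

/-!
# Positivity of the currents of holomorphic curves
-/

open Set Filter Topology TopologicalSpace MeasureTheory
open scoped Manifold ContDiff Distributions

namespace Pool.Agent.X183.CCyc

variable {k : ℕ}

/-- the standard symplectic form of the leaves, as an alternating map -/
def omA (k : ℕ) : (M k) [⋀^Fin 2]→ₗ[ℝ] ℝ where
  toFun v := ((v 0).1.1.re * (v 1).1.1.im - (v 0).1.1.im * (v 1).1.1.re) +
    ((v 0).1.2.re * (v 1).1.2.im - (v 0).1.2.im * (v 1).1.2.re)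
  map_update_add' := by
    intro _ m i x y
    fin_cases i <;> simp [Function.update] <;> ring
  map_update_smul' := by
    intro _ m i c x
    fin_cases i <;> simp [Function.update] <;> ring
  map_eq_zero_of_eq' := by
    intro v i j hij hne
    have h01 : v 0 = v 1 := by
      fin_cases i <;> fin_cases j <;> simp_all
    rw [h01]
    ring

theorem omA_apply (v : Fin 2 → M k) : omA k v =
    ((v 0).1.1.re * (v 1).1.1.im - (v 0).1.1.im * (v 1).1.1.re) +
    ((v 0).1.2.re * (v 1).1.2.im - (v 0).1.2.im * (v 1).1.2.re) := rfl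

/-- the standard symplectic form of the leaves -/
noncomputable def om (k : ℕ) : (M k) [⋀^Fin 2]→L[ℝ] ℝ :=
  (omA k).mkContinuous 4 (by
    intro v
    rw [omA_apply, Fin.prod_univ_two]
    have h0 : ∀ x : M k, |x.1.1.re| ≤ ‖x‖ ∧ |x.1.1.im| ≤ ‖x‖ ∧ |x.1.2.re| ≤ ‖x‖ ∧
        |x.1.2.im| ≤ ‖x‖ := by
      intro x
      have h1 : ‖x.1.1‖ ≤ ‖x‖ := (norm_fst_le x.1).trans (norm_fst_le x)
      have h2 : ‖x.1.2‖ ≤ ‖x‖ := (norm_snd_le x.1).trans (norm_fst_le x)
      exact ⟨(Complex.abs_re_le_norm _).trans h1, (Complex.abs_im_le_norm _).trans h1,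
        (Complex.abs_re_le_norm _).trans h2, (Complex.abs_im_le_norm _).trans h2⟩
    obtain ⟨a1, a2, a3, a4⟩ := h0 (v 0)
    obtain ⟨b1, b2, b3, b4⟩ := h0 (v 1)
    have hm : ∀ {p q : ℝ}, |p| ≤ ‖v 0‖ → |q| ≤ ‖v 1‖ → |p * q| ≤ ‖v 0‖ * ‖v 1‖ := by
      intro p q hp hq
      rw [abs_mul]
      exact mul_le_mul hp hq (abs_nonneg _) (norm_nonneg _)
    have c1 := hm a1 b2
    have c2 := hm a2 b1
    have c3 := hm a3 b4
    have c4 := hm a4 b3
    rw [Real.norm_eq_abs]
    rw [abs_le] at c1 c2 c3 c4 ⊢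
    constructor <;> linarith [c1.1, c1.2, c2.1, c2.2, c3.1, c3.2, c4.1, c4.2])

theorem om_apply (v w : M k) : om k ![v, w] =
    (v.1.1.re * w.1.1.im - v.1.1.im * w.1.1.re) + (v.1.2.re * w.1.2.im - v.1.2.im * w.1.2.re) :=
  rfl

theorem om_J (a : ℂ × ℂ) : om k ![(a, 0), (Complex.I • a, 0)] = ‖a.1‖ ^ 2 + ‖a.2‖ ^ 2 := by
  rw [om_apply, ← Complex.normSq_eq_norm_sq, ← Complex.normSq_eq_norm_sq]
  simp [Complex.normSq_apply]

/-- the test form `φ ω` -/
noncomputable def mkForm {U : Opens (M k)} (φ : M k → ℝ) (h1 : ContDiff ℝ ∞ φ)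
    (h2 : HasCompactSupport φ) (h3 : tsupport φ ⊆ U) : Form k 2 U where
  toFun z := φ z • om k
  contDiff' := h1.smul contDiff_const
  hasCompactSupport' := h2.smul_right
  tsupport_subset' := (tsupport_smul_subset_left φ _).trans h3

theorem mkForm_apply {U : Opens (M k)} (φ : M k → ℝ) (h1 : ContDiff ℝ ∞ φ)
    (h2 : HasCompactSupport φ) (h3 : tsupport φ ⊆ U) (z : M k) :
    mkForm φ h1 h2 h3 z = φ z • om k := rfl

variable {S : Type} [TopologicalSpace S] [ChartedSpace ℂ S]

/-- if the form vanishes along the curve, the integral is zero -/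
theorem integral_zero_of_vanish {u : S → M k} {α : M k → (M k) [⋀^Fin 2]→L[ℝ] ℝ} {I : ℝ}
    (h : IsPullbackIntegral u α I) (hα : ∀ s, α (u s) = 0) : I = 0 := by
  obtain ⟨N, p, ρ, -, -, -, -, -, hI⟩ := h
  rw [hI]
  apply Finset.sum_eq_zero
  intro i _
  simp [hα]

section

variable [IsManifold 𝓘(ℂ, ℂ) 1 S]

/-- the first component in a chart -/
noncomputable def cF (u : S → M k) (p : S) (z : ℂ) : ℂ × ℂ := (u ((chartAt ℂ p).symm z)).1

theorem IsPCurve.cF_diff {U : Opens (M k)} {u : S → M k} (hu : IsPCurve U u) (p : S) :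
    DifferentiableOn ℂ (cF u p) (chartAt ℂ p).target :=
  chart_holo hu.holo p

theorem IsPCurve.fderiv_eq {U : Opens (M k)} {u : S → M k} (hu : IsPCurve U u) (p : S) {z : ℂ}
    (hz : z ∈ (chartAt ℂ p).target) (v : ℂ) :
    fderiv ℝ (fun z => u ((chartAt ℂ p).symm z)) z v = (v • deriv (cF u p) z, 0) := by
  obtain ⟨w, hw⟩ := hu.leaf
  have h1 : (fun z => u ((chartAt ℂ p).symm z)) = fun z => (cF u p z, w) := by
    funext z
    exact Prod.ext rfl (hw _)
  have h2 : HasDerivAt (cF u p) (deriv (cF u p) z) z :=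
    ((hu.cF_diff p).differentiableAt ((chartAt ℂ p).open_target.mem_nhds hz)).hasDerivAt
  have h3 : HasFDerivAt (cF u p)
      ((ContinuousLinearMap.toSpanSingleton ℂ (deriv (cF u p) z)).restrictScalars ℝ) z :=
    h2.hasFDerivAt.restrictScalars ℝ
  have h4 := h3.prodMk (hasFDerivAt_const w z)
  rw [h1, h4.fderiv]
  simp

theorem IsPCurve.integrand {U : Opens (M k)} {u : S → M k} (hu : IsPCurve U u) (p : S) {z : ℂ}
    (hz : z ∈ (chartAt ℂ p).target) (ρ φ : ℝ) :
    ρ * (φ • om k) ![fderiv ℝ (fun z => u ((chartAt ℂ p).symm z)) z 1,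
          fderiv ℝ (fun z => u ((chartAt ℂ p).symm z)) z Complex.I] =
      ρ * (φ * (‖(deriv (cF u p) z).1‖ ^ 2 + ‖(deriv (cF u p) z).2‖ ^ 2)) := by
  rw [hu.fderiv_eq p hz, hu.fderiv_eq p hz, one_smul, ContinuousAlternatingMap.smul_apply, om_J,
    smul_eq_mul]

theorem integral_nonneg' {U : Opens (M k)} {u : S → M k} (hu : IsPCurve U u) {φ : M k → ℝ}
    (hφ : ∀ z, 0 ≤ φ z) {I : ℝ} (h : IsPullbackIntegral u (fun z => φ z • om k) I) : 0 ≤ I := by
  obtain ⟨N, p, ρ, -, hρ, -, -, -, hI⟩ := h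
  rw [hI]
  apply Finset.sum_nonneg
  intro i _
  apply setIntegral_nonneg (chartAt ℂ (p i)).open_target.measurableSet
  intro z hz
  rw [hu.integrand (p i) hz]
  have h1 := hρ i ((chartAt ℂ (p i)).symm z)
  have h2 := hφ (u ((chartAt ℂ (p i)).symm z))
  positivity

/-- If the integral of `φ ω` vanishes (`φ ≥ 0` continuous), then `φ` vanishes along the curve. -/
theorem vanish_of_integral_zero [T2Space S] [ConnectedSpace S] {U : Opens (M k)} {u : S → M k}
    (hu : IsPCurve U u)
    {φ : M k → ℝ} (hφ : ∀ z, 0 ≤ φ z) (hφc : Continuous φ)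
    (h : IsPullbackIntegral u (fun z => φ z • om k) 0) (s₁ : S) : φ (u s₁) = 0 := by
  by_contra hne
  have hpos : 0 < φ (u s₁) := lt_of_le_of_ne (hφ _) (Ne.symm hne)
  obtain ⟨N, p, ρ, hρc, hρ, hρs, hρt, hsum, hI⟩ := h
  have humem : u s₁ ∈ tsupport (fun z => φ z • om k) := by
    apply subset_tsupport
    rw [Function.mem_support]
    intro h0
    have h1 := congrArg (fun L : (M k) [⋀^Fin 2]→L[ℝ] ℝ => L ![((1, 0), 0), ((Complex.I, 0), 0)]) h0
    simp only [ContinuousAlternatingMap.smul_apply, om_apply] at h1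
    simp at h1
    exact hne h1
  have hs1 := hsum s₁ humem
  obtain ⟨i, -, hi⟩ : ∃ i ∈ Finset.univ, 0 < ρ i s₁ := by
    apply Finset.exists_lt_of_sum_lt (f := fun _ => (0 : ℝ))
    rw [hs1]; simp
  set e := chartAt ℂ (p i) with he
  have hsrc : s₁ ∈ e.source := hρt i (subset_tsupport _ (by rw [Function.mem_support]; exact hi.ne'))
  -- the i-th term vanishes
  have hterm : ∀ j, 0 ≤ ∫ z in (chartAt ℂ (p j)).target, ρ j ((chartAt ℂ (p j)).symm z) *
      ((fun z => φ z • om k) (u ((chartAt ℂ (p j)).symm z)))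
        ![fderiv ℝ (fun z => u ((chartAt ℂ (p j)).symm z)) z 1,
          fderiv ℝ (fun z => u ((chartAt ℂ (p j)).symm z)) z Complex.I] := by
    intro j
    apply setIntegral_nonneg (chartAt ℂ (p j)).open_target.measurableSet
    intro z hz
    rw [hu.integrand (p j) hz]
    have h1 := hρ j ((chartAt ℂ (p j)).symm z)
    have h2 := hφ (u ((chartAt ℂ (p j)).symm z))
    positivity
  have hzero := (Finset.sum_eq_zero_iff_of_nonneg (fun j _ => hterm j)).mp hI.symm i
    (Finset.mem_univ i)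
  set G : ℂ → ℝ := fun z => ρ i (e.symm z) *
    (φ (u (e.symm z)) * (‖(deriv (cF u (p i)) z).1‖ ^ 2 + ‖(deriv (cF u (p i)) z).2‖ ^ 2)) with hG
  have hGint : ∫ z in e.target, G z = 0 := by
    rw [← hzero]
    apply setIntegral_congr_fun e.open_target.measurableSet
    intro z hz
    exact (hu.integrand (p i) hz _ _).symm
  have hGcont : ContinuousOn G e.target := by
    have h1 : ContinuousOn e.symm e.target := e.continuousOn_symm
    have h2 : ContinuousOn (deriv (cF u (p i))) e.target :=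
      ((hu.cF_diff (p i)).deriv e.open_target).continuousOn
    have h3 : ContinuousOn (fun z => u (e.symm z)) e.target := hu.continuous.comp_continuousOn h1
    exact ((hρc i).comp_continuousOn h1).mul ((hφc.comp_continuousOn h3).mul
      (((continuous_fst.comp_continuousOn h2).norm.pow 2).add
        ((continuous_snd.comp_continuousOn h2).norm.pow 2)))
  have hGnn : ∀ z, 0 ≤ G z := by
    intro z
    have h1 := hρ i (e.symm z)
    have h2 := hφ (u (e.symm z))
    simp only [hG]
    positivity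
  have hGI : IntegrableOn G e.target := by
    set K : Set ℂ := e '' tsupport (ρ i) with hK
    have hKc : IsCompact K := (hρs i).isCompact.image_of_continuousOn
      (e.continuousOn.mono (hρt i))
    have hKt : K ⊆ e.target := by
      rintro _ ⟨s, hs, rfl⟩
      exact e.map_source (hρt i hs)
    have h1 : IntegrableOn G K := (hGcont.mono hKt).integrableOn_compact hKc
    have h2 : ∀ z ∈ e.target \ K, G z = 0 := by
      intro z hz
      have h3 : ρ i (e.symm z) = 0 := by
        by_contra h4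
        apply hz.2
        exact ⟨e.symm z, subset_tsupport _ h4, e.right_inv hz.1⟩
      simp only [hG, h3, zero_mul]
    exact h1.of_forall_sdiff_eq_zero e.open_target.measurableSet h2
  have hae : G =ᵐ[volume.restrict e.target] 0 := by
    rwa [setIntegral_eq_zero_iff_of_nonneg_ae (Filter.Eventually.of_forall hGnn) hGI] at hGint
  have hEq : EqOn G 0 e.target :=
    MeasureTheory.Measure.eqOn_open_of_ae_eq hae e.open_target hGcont continuousOn_const
  -- derivative vanishes near `e s₁`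
  have hnear : ∀ᶠ z in 𝓝 (e s₁), z ∈ e.target ∧ deriv (cF u (p i)) z = 0 := by
    have h1 : Tendsto e.symm (𝓝 (e s₁)) (𝓝 s₁) := by
      have := e.symm.continuousAt (x := e s₁) (e.map_source hsrc)
      rw [ContinuousAt, e.left_inv hsrc] at this
      exact this
    have h2 : ∀ᶠ s in 𝓝 s₁, 0 < ρ i s := (hρc i).continuousAt.eventually (lt_mem_nhds hi)
    have h3 : ∀ᶠ s in 𝓝 s₁, 0 < φ (u s) :=
      (hφc.comp hu.continuous).continuousAt.eventually (lt_mem_nhds hpos)
    filter_upwards [h1.eventually h2, h1.eventually h3,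
      e.open_target.mem_nhds (e.map_source hsrc)] with z z1 z2 z3
    refine ⟨z3, ?_⟩
    have h4 : G z = 0 := hEq z3
    simp only [hG] at h4
    have h5 : ‖(deriv (cF u (p i)) z).1‖ ^ 2 + ‖(deriv (cF u (p i)) z).2‖ ^ 2 = 0 := by
      rcases mul_eq_zero.mp h4 with h5 | h5
      · exact absurd h5 z1.ne'
      · rcases mul_eq_zero.mp h5 with h6 | h6
        · exact absurd h6 z2.ne'
        · exact h6
    obtain ⟨h6, h7⟩ := (add_eq_zero_iff_of_nonneg (by positivity) (by positivity)).mp h5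
    rw [pow_eq_zero_iff two_ne_zero] at h6 h7
    exact Prod.ext (norm_eq_zero.mp h6) (norm_eq_zero.mp h7)
  obtain ⟨r, hr, hball⟩ := Metric.eventually_nhds_iff_ball.mp hnear
  have hconst : ∀ z ∈ Metric.ball (e s₁) r, cF u (p i) z = cF u (p i) (e s₁) := by
    intro z hz
    have hd : DifferentiableOn ℂ (cF u (p i)) (Metric.ball (e s₁) r) :=
      (hu.cF_diff (p i)).mono fun z hz => (hball z hz).1
    exact Metric.isOpen_ball.is_const_of_deriv_eq_zero (convex_ball _ _).isPreconnected hd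
      (fun z hz => (hball z hz).2) hz (Metric.mem_ball_self hr)
  have hloc : ∀ᶠ s in 𝓝 s₁, (u s).1 = (u s₁).1 := by
    have h1 : ∀ᶠ s in 𝓝 s₁, e s ∈ Metric.ball (e s₁) r :=
      (e.continuousAt hsrc).eventually (Metric.ball_mem_nhds _ hr)
    filter_upwards [h1, e.open_source.mem_nhds hsrc] with s h2 h3
    have h4 := hconst _ h2
    simp only [cF, e] at h4
    rw [(chartAt ℂ (p i)).left_inv h3, (chartAt ℂ (p i)).left_inv hsrc] at h4
    exact h4
  have hfd : MDifferentiable 𝓘(ℂ, ℂ) 𝓘(ℂ, ℂ) fun s => (u s).1.1 :=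
    (ContinuousLinearMap.fst ℂ ℂ ℂ).differentiable.mdifferentiable.comp hu.holo
  have hgd : MDifferentiable 𝓘(ℂ, ℂ) 𝓘(ℂ, ℂ) fun s => (u s).1.2 :=
    (ContinuousLinearMap.snd ℂ ℂ ℂ).differentiable.mdifferentiable.comp hu.holo
  have hf := identity_theorem hfd (s₀ := s₁) (c := (u s₁).1.1) (by
    filter_upwards [hloc] with s hs
    rw [hs])
  have hg := identity_theorem hgd (s₀ := s₁) (c := (u s₁).1.2) (by
    filter_upwards [hloc] with s hs
    rw [hs])
  apply hu.not_const
  intro s s'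
  exact Prod.ext ((hf s).trans (hf s').symm) ((hg s).trans (hg s').symm)

end

end Pool.Agent.X183.CCyc
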