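import Mathlib

/-!
# Elementary facts on Riemann surfaces
-/

open Set Filter Topology
open scoped Manifold ContDiff

namespace Pool.Agent.X183.CCyc

variable {S : Type} [TopologicalSpace S] [ChartedSpace ℂ S] [IsManifold 𝓘(ℂ, ℂ) 1 S]

theorem chart_holo {F : Type} [NormedAddCommGroup F] [NormedSpace ℂ F] {f : S → F}
    (hf : MDifferentiable 𝓘(ℂ, ℂ) 𝓘(ℂ, F) f) (p : S) :
    DifferentiableOn ℂ (fun z => f ((chartAt ℂ p).symm z)) (chartAt ℂ p).target := by
  have h1 := mdifferentiableOn_atlas_symm (I := 𝓘(ℂ, ℂ)) (chart_mem_atlas ℂ p)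
  have h2 : MDifferentiableOn 𝓘(ℂ, ℂ) 𝓘(ℂ, F) (f ∘ (chartAt ℂ p).symm) (chartAt ℂ p).target :=
    hf.comp_mdifferentiableOn h1
  exact mdifferentiableOn_iff_differentiableOn.mp h2

/-- identity theorem -/
theorem identity_theorem [ConnectedSpace S] {f : S → ℂ}
    (hf : MDifferentiable 𝓘(ℂ, ℂ) 𝓘(ℂ, ℂ) f) {s₀ : S} {c : ℂ} (h : ∀ᶠ s in 𝓝 s₀, f s = c) (s : S) :
    f s = c := by
  have hopen : IsOpen {s : S | ∀ᶠ s' in 𝓝 s, f s' = c} := isOpen_setOfPred_eventually_nhds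
  have hclosed : IsClosed {s : S | ∀ᶠ s' in 𝓝 s, f s' = c} := by
    rw [← closure_subset_iff_isClosed]
    intro s hs
    set φ := chartAt ℂ s with hφ
    have hsφ : s ∈ φ.source := mem_chart_source ℂ s
    have hF := chart_holo hf s
    obtain ⟨r, hr, hball⟩ := Metric.isOpen_iff.mp φ.open_target (φ s) (φ.map_source hsφ)
    have hFa : AnalyticOnNhd ℂ (fun z => f (φ.symm z)) (Metric.ball (φ s) r) :=
      (hF.mono hball).analyticOnNhd Metric.isOpen_ball
    -- neighbourhood of s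
    have hW : φ.source ∩ φ ⁻¹' (Metric.ball (φ s) r) ∈ 𝓝 s :=
      (φ.continuousAt hsφ).preimage_mem_nhds (Metric.ball_mem_nhds _ hr) |> fun h =>
        Filter.inter_mem (φ.open_source.mem_nhds hsφ) h
    obtain ⟨s', hs'1, hs'2⟩ := mem_closure_iff_nhds.mp hs _ hW
    have hs'A : ∀ᶠ t in 𝓝 s', f t = c := hs'2
    have hz : ∀ᶠ z in 𝓝 (φ s'), f (φ.symm z) = c := by
      have h1 : Tendsto φ.symm (𝓝 (φ s')) (𝓝 s') := by
        have := φ.symm.continuousAt (x := φ s') (φ.map_source hs'1.1)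
        rw [ContinuousAt, φ.left_inv hs'1.1] at this
        exact this
      exact h1 hs'A
    have hEq : EqOn (fun z => f (φ.symm z)) (fun _ => c) (Metric.ball (φ s) r) :=
      hFa.eqOn_of_preconnected_of_eventuallyEq analyticOnNhd_const
        (convex_ball _ _).isPreconnected hs'1.2 hz
    change ∀ᶠ t in 𝓝 s, f t = c
    filter_upwards [hW] with t ht
    have := hEq ht.2
    simp only [φ.left_inv ht.1] at this
    exact this
  have huniv : {s : S | ∀ᶠ s' in 𝓝 s, f s' = c} = univ :=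
    IsClopen.eq_univ ⟨hclosed, hopen⟩ ⟨s₀, h⟩
  have : s ∈ {s : S | ∀ᶠ s' in 𝓝 s, f s' = c} := by rw [huniv]; trivial
  exact this.self_of_nhds

/-- open mapping theorem -/
theorem open_mapping [ConnectedSpace S] {f : S → ℂ}
    (hf : MDifferentiable 𝓘(ℂ, ℂ) 𝓘(ℂ, ℂ) f) (hnc : ¬ ∃ c, ∀ s, f s = c) (s : S) :
    𝓝 (f s) ≤ map f (𝓝 s) := by
  set φ := chartAt ℂ s with hφ
  have hsφ : s ∈ φ.source := mem_chart_source ℂ s
  have hF := chart_holo hf s
  have hFa : AnalyticAt ℂ (fun z => f (φ.symm z)) (φ s) :=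
    (hF.analyticOnNhd φ.open_target) (φ s) (φ.map_source hsφ)
  have hsymm : Tendsto φ.symm (𝓝 (φ s)) (𝓝 s) := by
    have := φ.symm.continuousAt (x := φ s) (φ.map_source hsφ)
    rw [ContinuousAt, φ.left_inv hsφ] at this
    exact this
  rcases hFa.eventually_constant_or_nhds_le_map_nhds with h | h
  · exfalso
    apply hnc
    refine ⟨f s, identity_theorem hf (s₀ := s) ?_⟩
    have h1 : ∀ᶠ t in 𝓝 s, f (φ.symm (φ t)) = f (φ.symm (φ s)) := (φ.continuousAt hsφ) h
    filter_upwards [h1, φ.open_source.mem_nhds hsφ] with t ht1 ht2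
    rw [φ.left_inv ht2, φ.left_inv hsφ] at ht1
    exact ht1
  · have h1 : map (fun z => f (φ.symm z)) (𝓝 (φ s)) ≤ map f (𝓝 s) := by
      have : map (fun z => f (φ.symm z)) (𝓝 (φ s)) = map f (map φ.symm (𝓝 (φ s))) := by
        rw [Filter.map_map]; rfl
      rw [this]
      exact map_mono hsymm
    have h2 : f s = f (φ.symm (φ s)) := by rw [φ.left_inv hsφ]
    rw [h2]
    exact h.trans h1

/-- A holomorphic function with constant real part on a nonempty open set is constant. -/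
theorem const_of_re_const [ConnectedSpace S] {f : S → ℂ}
    (hf : MDifferentiable 𝓘(ℂ, ℂ) 𝓘(ℂ, ℂ) f) {s₀ : S} (h : ∀ᶠ s in 𝓝 s₀, (f s).re = 0) :
    ∃ c, ∀ s, f s = c := by
  by_contra hnc
  have h1 := open_mapping hf hnc s₀
  have h2 : {z : ℂ | z.re = 0} ∈ 𝓝 (f s₀) := h1 h
  rw [Metric.mem_nhds_iff] at h2
  obtain ⟨ε, hε, hb⟩ := h2
  have h3 : f s₀ + (ε / 2 : ℝ) ∈ Metric.ball (f s₀) ε := by
    rw [Metric.mem_ball, dist_eq_norm, add_sub_cancel_left, Complex.norm_real,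
      Real.norm_of_nonneg (by positivity)]
    linarith
  have h4 := hb h3
  have h5 := hb (Metric.mem_ball_self hε)
  simp only [mem_ofPred_eq, Complex.add_re, Complex.ofReal_re] at h4 h5
  linarith

end Pool.Agent.X183.CCyc
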